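import Pool.Agent.Helper40.OE.Main

/-!
MP_8fc531_lc, Q1: online partial edge colouring with `Δ` colours.

The algorithm keeps a weight for every vertex and colour, initially `1`. When the edge `uv`
arrives, colour `c` is proposed with probability `(1 - ε) / Δ` times the product of the weights of
`u` and `v`; proposals that would push a weight above `2 / ε`, and all proposals if their sum
exceeds `1`, are cancelled. A weight is divided by `1 - p` when the colour had probability `p` and
was not chosen, and becomes `0` when the colour is used. All quantities of interest are then
martingales or supermartingales, and second moments suffice to bound the loss of every single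
edge, whatever the number of vertices.
-/

namespace Pool.Agent.Results.MP_8fc531_lc.OnlinePartialColouring

open Pool.Agent.Helper40.OE

/-- For every `Δ ≥ 1` and every finite vertex set there is one randomised online algorithm with
`Δ` colours that colours every edge of every graph of maximum degree at most `Δ`, in every order
of arrival, with probability at least `1 - 6 Δ^(-1/6)`. -/
theorem result (Δ : ℕ) (hΔ : 1 ≤ Δ) (V : Type*) [Finite V] :
    ∃ A : OnlineAlg V Δ, ∀ (G : SimpleGraph V) (es : List (Sym2 V)),
      (∀ v, (G.neighborSet v).ncard ≤ Δ) → es.Nodup → (∀ e, e ∈ es ↔ e ∈ G.edgeSet) →
      ∀ e ∈ es, ENNReal.ofReal (1 - 6 * (Δ : ℝ) ^ (-(1 / 6) : ℝ)) ≤ A.probColoured es e :=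
  main Δ hΔ V

end Pool.Agent.Results.MP_8fc531_lc.OnlinePartialColouring
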